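import Pool.Agent.N743.DP.Opp

/-!
# Clusters of primes between consecutive odd squares, in dilated patterns of intervals

Q1 asks for two primes in every interval `I_j` between `(2 j - 1)²` and `(2 j + 1)²`. For every `m` there is `R` such that
for all `k`, every reduced residue class and ALL `d_1, …, d_m` there are at every scale `j` and `1 ≤ r ≤ R` such that each of
the intervals `I_j, I_{j + r d_1}, …, I_{j + r d_m}` contains at least `c j' / (log j')^D` (`j'` its number) subintervals
of bounded length with `k` primes of the class. So arbitrarily long arithmetic progressions of such intervals with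
bounded difference, and a bounded dilation of every finite pattern.

The proof combines the coloured Maynard-Tao theorem of the starting files (`Pool.Agent.Y827.RO.lamR0`, constant `18 / 5`;
it gives at least `5 / 18` of the intervals of some long block) with the density Hales-Jewett theorem
(`Pool.Agent.Helper868.DHJ`).
-/

set_option autoImplicit false

namespace Pool.Agent.Results.MP_5f6ee5_nt.PatternsOfRichIntervals

open Finset Filter

/-- `[y, y + C]` contains at least `k` primes congruent to `a` modulo `q` -/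
def Cluster (q a k C y : ℕ) : Prop :=
  k ≤ ((Icc y (y + C)).filter (fun p => p.Prime ∧ p ≡ a [MOD q])).card

open Classical in
/-- the number of the `y` such that `[y, y + C]` is contained in the open interval `I_j` between `(2 j - 1)²` and
`(2 j + 1)²` and contains at least `k` primes congruent to `a` modulo `q` -/
noncomputable def clusters (q a k C j : ℕ) : ℕ :=
  ((Ioo ((2 * j - 1) ^ 2) ((2 * j + 1) ^ 2)).filter (fun y => y + C < (2 * j + 1) ^ 2 ∧ Cluster q a k C y)).card

/-- `I_j` contains at least `c j / (log j)^D` clusters -/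
def Rich (q a k C D : ℕ) (c : ℝ) (j : ℕ) : Prop := c * (j / Real.log j ^ D) ≤ (clusters q a k C j : ℝ)

theorem rich_of (q a k C D : ℕ) (c : ℝ) (hc : 0 < c) (i j : ℕ) (hj : 3 ≤ j) (h1 : 4 * j ≤ i + 2)
    (h2 : i ≤ 4 * j + 1) (h : Pool.Agent.N743.MT.Rich q a k C D c i) : Rich q a k C D (c / 3 ^ D) j := by
  classical
  have hq1 : (2 * j - 1) ^ 2 ≤ Pool.Agent.N743.MT.Qs i := by
    rw [← Pool.Agent.N743.MT.Qs_even]
    exact Pool.Agent.N743.MT.Qs_mono (by omega)
  have hq2 : Pool.Agent.N743.MT.Qs (i + 1) ≤ (2 * j + 1) ^ 2 := by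
    rw [← Pool.Agent.N743.MT.Qs_even]
    exact Pool.Agent.N743.MT.Qs_mono (by omega)
  unfold Rich
  have hjr : (3 : ℝ) ≤ j := by exact_mod_cast hj
  have hij : (j : ℝ) ≤ i := by exact_mod_cast (by omega : j ≤ i)
  have hlj : 0 < Real.log j := Real.log_pos (by linarith)
  have hli : 0 < Real.log i := Real.log_pos (by linarith)
  have hlog : Real.log i ≤ 3 * Real.log j := by
    have h3 : (i : ℝ) ≤ (j : ℝ) ^ 3 := by
      have h4 : (i : ℝ) ≤ 4 * j + 1 := by exact_mod_cast h2
      have h5 : (9 : ℝ) * j ≤ (j : ℝ) ^ 3 := by nlinarith [mul_self_nonneg ((j : ℝ) - 3)]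
      linarith
    calc Real.log i ≤ Real.log ((j : ℝ) ^ 3) := Real.log_le_log (by linarith) h3
      _ = 3 * Real.log j := by rw [Real.log_pow]; norm_num
  calc c / 3 ^ D * (j / Real.log j ^ D) = c * (j / (3 * Real.log j) ^ D) := by
        rw [mul_pow]
        field_simp
    _ ≤ c * (i / Real.log i ^ D) := by
        refine mul_le_mul_of_nonneg_left ?_ hc.le
        exact div_le_div₀ (by linarith) hij (by positivity) (pow_le_pow_left₀ hli.le hlog D)
    _ ≤ _ := h
    _ ≤ _ := by
      rw [Nat.cast_le]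
      refine card_le_card fun y hy => ?_
      rw [mem_filter, mem_Ioo] at hy ⊢
      exact ⟨⟨lt_of_le_of_lt hq1 hy.1.1, lt_of_lt_of_le hy.1.2 hq2⟩, lt_of_lt_of_le hy.2.1 hq2, hy.2.2⟩

/-- For every `m` there is `R` such that for all `k`, `q ≥ 1`, `a` prime to `q` and all `d_1, …, d_m` there are `C`, `D` and
`c > 0` such that for all large `N` there are `N ≤ j ≤ 11 q N` and `1 ≤ r ≤ R` such that `I_j` and all `I_{j + r d_i}` contain
at least `c j' / (log j')^D` (`j'` the number of the interval) clusters of `k` primes congruent to `a` modulo `q`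
of length `C`. -/
theorem result (m : ℕ) : ∃ R : ℕ, 1 ≤ R ∧ ∀ (k q a : ℕ) (d : Fin m → ℕ), 1 ≤ q → a.Coprime q →
    ∃ C D : ℕ, ∃ c : ℝ, 0 < c ∧ ∀ᶠ N : ℕ in atTop, ∃ j r : ℕ, N ≤ j ∧ j ≤ 11 * q * N ∧ 1 ≤ r ∧ r ≤ R ∧
      Rich q a k C D c j ∧ ∀ i, Rich q a k C D c (j + r * d i) := by
  obtain ⟨R, hR, h⟩ := Pool.Agent.N743.DP.opp_pattern m
  refine ⟨R, hR, fun k q a d hq ha => ?_⟩
  obtain ⟨C, D, c, hc, hev⟩ := h k q a (fun i => 4 * d i) hq ha
  refine ⟨C, D, c / 3 ^ D, by positivity, ?_⟩
  have ht : Tendsto (fun N : ℕ => 4 * N) atTop atTop :=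
    tendsto_atTop_mono (fun N => by show N ≤ 4 * N; omega) tendsto_id
  filter_upwards [ht.eventually hev, eventually_ge_atTop 3] with N hN hN3
  obtain ⟨i, r, hi1, hi2, hr1, hr2, h1, h2⟩ := hN
  have hqN : N ≤ q * N := Nat.le_mul_of_pos_left N (by omega)
  have e1 : 10 * q * (4 * N) = 40 * (q * N) := by ring
  have e2 : 11 * q * N = 11 * (q * N) := by ring
  refine ⟨(i + 2) / 4, r, by omega, by omega, hr1, hr2, ?_, fun t => ?_⟩
  · exact rich_of q a k C D c hc i _ (by omega) (by omega) (by omega) h1
  · have e3 : r * (4 * d t) = 4 * (r * d t) := by ring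
    have h3 := h2 t
    rw [e3] at h3
    exact rich_of q a k C D c hc _ _ (by omega) (by omega) (by omega) h3

end Pool.Agent.Results.MP_5f6ee5_nt.PatternsOfRichIntervals
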