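import Mathlib
import Pool.Agent.N634.OS.Tr

/-!
# At least two chosen integers between consecutive odd squares: the second order threshold

Integers are chosen one at a time: `A n` is the event that `n` is chosen, and the conditional
probability of choosing `n + 1`, given all that was decided up to `n`, may depend on the past in any
way; no independence is assumed. Let these conditional probabilities be
`((log n) / 2 + (c + o(1)) log log n) / (4 √n)`. Almost surely: if `c > m` then at least `m` integers
between `(2 k - 1) ^ 2` and `(2 k + 1) ^ 2` are chosen for all large `k`, and if `c < m` this fails for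
`(log K) ^ (m - c + o(1))` of the `k ≤ K`, and infinitely often exactly `m - 1` integers are chosen.

So for every `m` the threshold for the property of at least `m` chosen integers is at `c = m`: for `1 < c < 2` almost surely all large
intervals contain a chosen integer, but infinitely many of them contain only one.
-/

set_option autoImplicit false

open MeasureTheory Filter Topology

namespace Pool.Agent.Results.MP_5f6ee5_nt.SecondOrderThreshold

open Pool.Agent.N634.OS (between fewer)

/-- The conditional probability that `n + 1` is chosen, given the decisions up to `n`. -/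
noncomputable def condProb {Ω : Type} {m0 : MeasurableSpace Ω} (μ : Measure Ω) (ℱ : Filtration ℕ m0)
    (A : ℕ → Set Ω) (n : ℕ) : Ω → ℝ :=
  μ[(A (n + 1)).indicator (fun _ => (1 : ℝ)) | ℱ n]

/-- Let `A n` be adapted events (`n` is chosen), `between A k ω` the number of the chosen integers
between `(2 k - 1) ^ 2` and `(2 k + 1) ^ 2`, and `fewer A m K ω` the number of the `k`, `1 ≤ k ≤ K`, with
less than `m` such integers. Let the conditional probabilities be almost surely
`((log n) / 2 + (c + o(1)) log log n) / (4 √n)`, `c` real, and let `m ≥ 1`.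

(1) If `c > m` then almost surely `between A k ω ≥ m` for all large `k`.

(2) If `c < m` then almost surely `fewer A m K ω = (log K) ^ (m - c + o(1))`, and `between A k ω = m - 1`
for infinitely many `k`. -/
theorem result {Ω : Type} {m0 : MeasurableSpace Ω} (μ : Measure Ω) [IsProbabilityMeasure μ]
    (ℱ : Filtration ℕ m0) (A : ℕ → Set Ω) (hA : ∀ n, MeasurableSet[ℱ n] (A n)) (c : ℝ)
    (h : ∀ᵐ ω ∂μ, Tendsto (fun n : ℕ => (4 * √(n : ℝ) * condProb μ ℱ A n ω - Real.log n / 2) /
      Real.log (Real.log n)) atTop (𝓝 c)) (m : ℕ) (hm : 1 ≤ m) :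
    ((m : ℝ) < c → ∀ᵐ ω ∂μ, ∀ᶠ k in atTop, m ≤ between A k ω) ∧
    (c < m →
      (∀ᵐ ω ∂μ, Tendsto (fun K : ℕ => Real.log (fewer A m K ω) / Real.log (Real.log K)) atTop
        (𝓝 (m - c))) ∧
      ∀ᵐ ω ∂μ, ∃ᶠ k in atTop, between A k ω = m - 1) := by
  obtain ⟨h1, h2⟩ := Pool.Agent.N634.OS.second_law hA h m hm
  refine ⟨fun h3 => ?_, fun h3 => ⟨?_, ?_⟩⟩
  · filter_upwards [h1 h3] with ω hω
    rw [← Filter.map_add_atTop_eq_nat 1, eventually_map]
    filter_upwards [hω] with k hk
    rwa [Pool.Agent.N634.OS.between_succ]
  · filter_upwards [(h2 h3).1] with ω hω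
    refine hω.congr fun K => ?_
    rw [Pool.Agent.N634.OS.fewer_eq]
  · filter_upwards [(h2 h3).2] with ω hω
    rw [← Filter.map_add_atTop_eq_nat 1, frequently_map]
    refine hω.mono fun k hk => ?_
    rwa [Pool.Agent.N634.OS.between_succ]

end Pool.Agent.Results.MP_5f6ee5_nt.SecondOrderThreshold
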