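import Mathlib
import Pool.Agent.N740.HK.Suc
import Pool.Agent.N740.HK.Trials
import Pool.Agent.N740.HK.Sch

/-!
# The joint law of the numbers of primes in successive intervals between odd squares

The integers are decided one after the other and the conditional probability of choosing `n + 1`,
given the decisions up to `n`, is asymptotic to `1 / log n`, almost surely.  Nothing else is assumed:
no independence and no rate of convergence.  The independent model of Cramér and the random sieve of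
Hawkins are examples.
-/

set_option autoImplicit false

open MeasureTheory Filter Set ProbabilityTheory
open scoped Topology

namespace Pool.Agent.Results.MP_5f6ee5_nt.SuccessiveWindows

variable {Ω : Type}

/-- `A n` is the event that `n` is chosen.  The events are adapted to the filtration `ℱ` and the
conditional probability of `A (n + 1)` given `ℱ n`, times `log n`, tends to `1` almost surely. -/
def SequentialModel [m : MeasurableSpace Ω] (μ : Measure Ω) (ℱ : Filtration ℕ m) (A : ℕ → Set Ω) : Prop :=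
  (∀ n, MeasurableSet[ℱ n] (A n)) ∧
  ∀ᵐ ω ∂μ, Tendsto (fun n : ℕ => (μ[(A (n + 1)).indicator (fun _ => (1 : ℝ)) | ℱ n]) ω * Real.log n) atTop (𝓝 1)

/-- The model of Cramér: independent events, `n` is chosen with probability `1 / log n` for `n ≥ 3`. -/
def CramerModel [MeasurableSpace Ω] (μ : Measure Ω) (A : ℕ → Set Ω) : Prop :=
  (∀ n, MeasurableSet (A n)) ∧ iIndepSet A μ ∧ ∀ n : ℕ, 3 ≤ n → μ (A n) = ENNReal.ofReal (1 / Real.log n)

open Classical in
/-- The random sieve of Hawkins: `2` is chosen, and given the decisions up to `n ≥ 2` the number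
`n + 1` is chosen with probability `∏ (1 - 1 / h)`, the product over the chosen `2 ≤ h ≤ n`. -/
def HawkinsSieve [m : MeasurableSpace Ω] (μ : Measure Ω) (ℱ : Filtration ℕ m) (A : ℕ → Set Ω) : Prop :=
  (∀ n, MeasurableSet[ℱ n] (A n)) ∧ A 2 = univ ∧
  ∀ n, 2 ≤ n → μ[(A (n + 1)).indicator (fun _ => (1 : ℝ)) | ℱ n] =ᵐ[μ]
    fun ω => ∏ h ∈ Finset.Icc 2 n, if ω ∈ A h then 1 - 1 / (h : ℝ) else 1

/-- `P_k`: the number of chosen integers strictly between `(2k - 1)²` and `(2k + 1)²`. -/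
noncomputable def P (A : ℕ → Set Ω) (k : ℕ) (ω : Ω) : ℝ :=
  ∑ r ∈ Finset.Ioo ((2 * k - 1) ^ 2) ((2 * k + 1) ^ 2), (A r).indicator (fun _ => (1 : ℝ)) ω

/-- `D_k`: the number `P_k` minus the sum of the conditional probabilities. -/
noncomputable def D [m : MeasurableSpace Ω] (μ : Measure Ω) (ℱ : Filtration ℕ m) (A : ℕ → Set Ω) (k : ℕ) (ω : Ω) : ℝ :=
  ∑ r ∈ Finset.Ioo ((2 * k - 1) ^ 2) ((2 * k + 1) ^ 2),
    ((A r).indicator (fun _ => (1 : ℝ)) ω - (μ[(A r).indicator (fun _ => (1 : ℝ)) | ℱ (r - 1)]) ω)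

open Pool.Agent.N740.HK Pool.Agent.R528.RM

lemma prod_inv (A : ℕ → Set Ω) (n : ℕ) (ω : Ω) [DecidablePred fun h => ω ∈ A h] :
    (∏ h ∈ Finset.Icc 2 n, if ω ∈ A h then 1 - 1 / (h : ℝ) else 1) = (Y A n ω)⁻¹ := by
  unfold Y
  rw [← Finset.prod_inv_distrib]
  refine Finset.prod_congr rfl fun h hh => ?_
  have h2 : (2 : ℝ) ≤ h := by exact_mod_cast (Finset.mem_Icc.1 hh).1
  by_cases hA : ω ∈ A h
  · rw [if_pos hA, if_pos hA, inv_div]
    field_simp
  · rw [if_neg hA, if_neg hA, inv_one]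

lemma log_ratio : Tendsto (fun n : ℕ => (Real.log ((n + 1 : ℕ) : ℝ))⁻¹ * Real.log n) atTop (𝓝 1) := by
  have h1 : Tendsto (fun n : ℕ => Real.log ((n : ℝ) + 1) - Real.log n) atTop (𝓝 0) := by
    have h1 : Tendsto (fun n : ℕ => 1 + (1 : ℝ) / n) atTop (𝓝 (1 + 0)) :=
      tendsto_const_nhds.add tendsto_one_div_atTop_nhds_zero_nat
    rw [add_zero] at h1
    have h2 := (Real.continuousAt_log (one_ne_zero)).tendsto.comp h1
    rw [Real.log_one] at h2
    refine h2.congr' ?_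
    filter_upwards [eventually_gt_atTop 0] with n hn
    have hn' : (0 : ℝ) < n := by exact_mod_cast hn
    show Real.log (1 + 1 / (n : ℝ)) = _
    rw [← Real.log_div (by positivity) hn'.ne']
    congr 1
    field_simp
  have h2 : Tendsto (fun n : ℕ => Real.log ((n : ℝ) + 1)) atTop atTop :=
    Real.tendsto_log_atTop.comp (tendsto_atTop_add_const_right _ _ tendsto_natCast_atTop_atTop)
  have h3 := h1.div_atTop h2
  have h4 : Tendsto (fun n : ℕ => 1 - (Real.log ((n : ℝ) + 1) - Real.log n) / Real.log ((n : ℝ) + 1)) atTop (𝓝 (1 - 0)) :=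
    tendsto_const_nhds.sub h3
  rw [sub_zero] at h4
  refine h4.congr' ?_
  filter_upwards [h2.eventually_gt_atTop 0] with n hn
  push_cast
  field_simp
  ring

lemma castT {k : ℕ} (hk : 1 ≤ k) : (((2 * k - 1) ^ 2 : ℕ) : ℝ) = (2 * (k : ℝ) - 1) ^ 2 := by
  rw [Nat.cast_pow, Nat.cast_sub (by omega)]
  push_cast
  ring

lemma castH {k : ℕ} (hk : 1 ≤ k) : ((8 * k - 1 : ℕ) : ℝ) = 8 * (k : ℝ) - 1 := by
  rw [Nat.cast_sub (by omega)]
  push_cast
  ring

lemma hT : Tendsto (fun k : ℕ => (2 * k - 1) ^ 2) atTop atTop := by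
  refine tendsto_atTop_mono' atTop ?_ tendsto_id
  filter_upwards [eventually_ge_atTop 1] with k hk
  simp only [id]
  have h1 : k ≤ 2 * k - 1 := by omega
  exact h1.trans (Nat.le_self_pow two_ne_zero _)

lemma hH2 : Tendsto (fun k : ℕ => 8 * k - 1) atTop atTop := by
  refine tendsto_atTop_mono' atTop ?_ tendsto_id
  filter_upwards [eventually_ge_atTop 1] with k hk
  simp only [id]
  omega

lemma hH : ∀ᶠ k : ℕ in atTop, 8 * k - 1 ≤ (2 * k - 1) ^ 2 := by
  filter_upwards [eventually_ge_atTop 4] with k hk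
  obtain ⟨j, rfl⟩ : ∃ j, k = j + 4 := ⟨k - 4, by omega⟩
  have e1 : 8 * (j + 4) - 1 = 8 * j + 31 := by omega
  have e2 : 2 * (j + 4) - 1 = 2 * j + 7 := by omega
  rw [e1, e2]
  nlinarith

lemma hTH (k : ℕ) : (2 * k - 1) ^ 2 + (8 * k - 1) ≤ (2 * (k + 1) - 1) ^ 2 := by
  rcases Nat.eq_zero_or_pos k with rfl | hk
  · norm_num
  · obtain ⟨j, rfl⟩ : ∃ j, k = j + 1 := ⟨k - 1, by omega⟩
    have e1 : 8 * (j + 1) - 1 = 8 * j + 7 := by omega
    have e2 : 2 * (j + 1) - 1 = 2 * j + 1 := by omega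
    have e3 : 2 * (j + 1 + 1) - 1 = 2 * j + 3 := by omega
    rw [e1, e2, e3]
    nlinarith

lemma hρ : Tendsto (fun k : ℕ => Real.log k / Real.log (((2 * k - 1) ^ 2 : ℕ) : ℝ)) atTop (𝓝 (1 / ((2 : ℕ) : ℝ))) := by
  refine log_ratio_pow (C := 4) two_pos (by norm_num) ?_
  filter_upwards [eventually_ge_atTop 1] with k hk
  have hk' : (1 : ℝ) ≤ k := by exact_mod_cast hk
  rw [castT hk]
  constructor <;> nlinarith

lemma hβ : Tendsto (fun k : ℕ => ((8 * k - 1 : ℕ) : ℝ) / (k : ℝ) ^ 1) atTop (𝓝 8) := by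
  have h1 : Tendsto (fun k : ℕ => (8 : ℝ) - 1 / (k : ℝ)) atTop (𝓝 (8 - 0)) :=
    tendsto_const_nhds.sub tendsto_one_div_atTop_nhds_zero_nat
  rw [sub_zero] at h1
  refine h1.congr' ?_
  filter_upwards [eventually_ge_atTop 1] with k hk
  have hk' : (0 : ℝ) < k := by exact_mod_cast hk
  rw [castH hk, pow_one]
  field_simp

lemma hS : StrictMono (fun k : ℕ => (2 * k - 1) ^ 2) := by
  refine strictMono_nat_of_lt_succ fun k => ?_
  rcases Nat.eq_zero_or_pos k with rfl | hk
  · norm_num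
  · exact Nat.pow_lt_pow_left (by omega) two_ne_zero

lemma hw : Tendsto (fun k : ℕ => 8 * (k : ℝ)) atTop atTop :=
  tendsto_natCast_atTop_atTop.const_mul_atTop (by norm_num)

lemma h1 : Tendsto (fun k : ℕ => ((((2 * (k + 1) - 1) ^ 2 : ℕ) : ℝ) - (((2 * k - 1) ^ 2 : ℕ) : ℝ)) / (8 * (k : ℝ))) atTop (𝓝 1) := by
  refine tendsto_const_nhds.congr' ?_
  filter_upwards [eventually_ge_atTop 1] with k hk
  have hk' : (0 : ℝ) < k := by exact_mod_cast hk
  rw [castT hk, castT (by omega)]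
  push_cast
  field_simp
  ring

lemma h2 (i : ℕ) : Tendsto (fun k : ℕ => 8 * ((k + i : ℕ) : ℝ) / (8 * (k : ℝ))) atTop (𝓝 1) := by
  have h3 : Tendsto (fun k : ℕ => 1 + (i : ℝ) / (k : ℝ)) atTop (𝓝 (1 + 0)) :=
    tendsto_const_nhds.add (tendsto_natCast_atTop_atTop.const_div_atTop _)
  rw [add_zero] at h3
  refine h3.congr' ?_
  filter_upwards [eventually_ge_atTop 1] with k hk
  have hk' : (0 : ℝ) < k := by exact_mod_cast hk
  push_cast
  field_simp

lemma h4 : Tendsto (fun k : ℕ => Real.log k * Real.log (((2 * k - 1) ^ 2 : ℕ) : ℝ) / (8 * (k : ℝ))) atTop (𝓝 0) := by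
  have hs := small_of (T := fun k => (2 * k - 1) ^ 2) (H := fun k => 8 * k) (β := 8) one_pos (by norm_num) (by norm_num) hρ (by
    refine tendsto_const_nhds.congr' ?_
    filter_upwards [eventually_ge_atTop 1] with k hk
    have hk' : (0 : ℝ) < k := by exact_mod_cast hk
    push_cast
    rw [pow_one]
    field_simp)
  refine hs.congr fun k => ?_
  push_cast
  rfl

lemma h5 (m : ℕ) : ∀ᶠ k : ℕ in atTop, (2 * (k + m) - 1) ^ 2 - (2 * k - 1) ^ 2 ≤ (2 * k - 1) ^ 2 := by
  filter_upwards [eventually_ge_atTop (5 * m + 5)] with k hk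
  obtain ⟨j, rfl⟩ : ∃ j, k = j + 1 := ⟨k - 1, by omega⟩
  have e1 : 2 * (j + 1 + m) - 1 = 2 * j + 1 + 2 * m := by omega
  have e2 : 2 * (j + 1) - 1 = 2 * j + 1 := by omega
  rw [e1, e2, Nat.sub_le_iff_le_add]
  have h : 5 * m ≤ 2 * j + 1 := by omega
  nlinarith

end Pool.Agent.Results.MP_5f6ee5_nt.SuccessiveWindows

open Pool.Agent.Results.MP_5f6ee5_nt.SuccessiveWindows Pool.Agent.N740.HK Pool.Agent.R528.RM

/-- The random sieve of Hawkins is a sequential model, the model of Cramér is one for some filtration for which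
the conditional probability of choosing `r ≥ 3` is `1 / log r`.  In every sequential model, almost surely:
`P_k ~ 4k / log k`, so `P_k ≥ 2` for all large `k`; and for every `m ≥ 1` the set of limit points of the vectors
`(D_k, D_{k+1}, ..., D_{k+m-1}) / √(8k)` is exactly the closed unit ball of `ℝ^m`, and their distance to the ball
tends to `0`. -/
theorem Pool.Agent.Results.MP_5f6ee5_nt.SuccessiveWindows.result
    {Ω : Type} [m : MeasurableSpace Ω] (μ : Measure Ω) [IsProbabilityMeasure μ] (A : ℕ → Set Ω) :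
    (CramerModel μ A → ∃ ℱ : Filtration ℕ m, SequentialModel μ ℱ A ∧
      ∀ᵐ ω ∂μ, ∀ k : ℕ, 2 ≤ k → D μ ℱ A k ω = P A k ω - ∑ r ∈ Finset.Ioo ((2 * k - 1) ^ 2) ((2 * k + 1) ^ 2), 1 / Real.log ((r : ℕ) : ℝ)) ∧
    ∀ ℱ : Filtration ℕ m,
    (HawkinsSieve μ ℱ A → SequentialModel μ ℱ A) ∧
    (SequentialModel μ ℱ A →
      ∀ᵐ ω ∂μ,
        Tendsto (fun k : ℕ => P A k ω * Real.log k / (4 * k)) atTop (𝓝 1) ∧
        (∀ᶠ k : ℕ in atTop, 2 ≤ P A k ω) ∧
        ∀ m : ℕ, 0 < m →
          {x : Fin m → ℝ | MapClusterPt x atTop (fun (k : ℕ) (i : Fin m) => D μ ℱ A (k + i) ω / √(8 * k))} =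
            {x : Fin m → ℝ | ∑ i, x i ^ 2 ≤ 1} ∧
          ∀ ε : ℝ, 0 < ε → ∀ᶠ k : ℕ in atTop, ∑ i : Fin m, (D μ ℱ A (k + i) ω / √(8 * k)) ^ 2 ≤ 1 + ε) := by
  classical
  refine ⟨?_, fun ℱ => ⟨?_, ?_⟩⟩
  · rintro ⟨hA, hi, hp⟩
    have h1 : ∀ᵐ ω ∂μ, ∀ n, (μ[(A (n + 1)).indicator (fun _ => (1 : ℝ)) | gen hA n]) ω =
        (μ (A (n + 1))).toReal := ae_all_iff.2 fun n => dens_gen hA hi n
    refine ⟨gen hA, ⟨gen_meas hA, ?_⟩, ?_⟩
    · filter_upwards [h1] with ω hω
      refine log_ratio.congr' ?_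
      filter_upwards [eventually_ge_atTop 2] with n hn
      rw [hω, hp (n + 1) (by omega), ENNReal.toReal_ofReal, one_div]
      have : 0 ≤ Real.log ((n + 1 : ℕ) : ℝ) := Real.log_natCast_nonneg _
      positivity
    · filter_upwards [h1] with ω hω k hk
      unfold D P
      rw [Finset.sum_sub_distrib]
      congr 1
      refine Finset.sum_congr rfl fun r hr => ?_
      have hr := Finset.mem_Ioo.1 hr
      have hk2 : 2 ≤ (2 * k - 1) ^ 2 := by
        have h3 : 3 ≤ 2 * k - 1 := by omega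
        have h4 : 3 ^ 2 ≤ (2 * k - 1) ^ 2 := Nat.pow_le_pow_left h3 2
        omega
      obtain ⟨t, rfl⟩ : ∃ t, r = t + 1 := ⟨r - 1, by omega⟩
      rw [Nat.add_sub_cancel, hω t, hp (t + 1) (by omega), ENNReal.toReal_ofReal]
      have : 0 ≤ Real.log ((t + 1 : ℕ) : ℝ) := Real.log_natCast_nonneg _
      positivity
  · rintro ⟨h1, h2, h3⟩
    have hs : Pool.Agent.N740.HK.HS μ ℱ A := ⟨h1, h2, fun n hn => by
      filter_upwards [h3 n hn] with ω hω
      rw [← prod_inv]
      exact hω⟩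
    exact ⟨h1, Pool.Agent.N740.HK.hawk_dens hs⟩
  · rintro ⟨hA, hd⟩
    have hs := small_of (T := fun k => (2 * k - 1) ^ 2) (H := fun k => 8 * k - 1) one_pos (by norm_num) (by norm_num) hρ hβ
    filter_upwards [succ_windows (μ := μ) hA hd hS (ρ := 1 / ((2 : ℕ) : ℝ)) (by norm_num) hw h1 h2 hρ h4 h5,
      part_count (μ := μ) hA hd (T := fun k => (2 * k - 1) ^ 2) (H := fun k => 8 * k - 1) hT hH hH2 hs hTH] with ω g1 g2
    have hcount : Tendsto (fun k : ℕ => P A k ω * Real.log k / (4 * k)) atTop (𝓝 1) := by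
      have h5 := (g2 1 one_pos 0).mul (hβ.mul hρ)
      have e : (1 : ℝ) * (8 * (1 / ((2 : ℕ) : ℝ))) = 4 := by norm_num
      rw [e] at h5
      have h6 := h5.const_mul (1 / 4)
      have e2 : (1 : ℝ) / 4 * 4 = 1 := by norm_num
      rw [e2] at h6
      refine h6.congr' ?_
      filter_upwards [eventually_ge_atTop 3] with k hk
      have hk' : (3 : ℝ) ≤ k := by exact_mod_cast hk
      have hL : 0 < Real.log (((2 * k - 1) ^ 2 : ℕ) : ℝ) := by
        rw [castT (by omega)]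
        apply Real.log_pos
        nlinarith
      have hH0 : (0 : ℝ) < ((8 * k - 1 : ℕ) : ℝ) := by
        rw [castH (by omega)]
        linarith
      have e3 : cnI A ((2 * k - 1) ^ 2 + cp 1 (8 * k - 1) ((0 : Fin 1) : ℕ)) ((2 * k - 1) ^ 2 + cp 1 (8 * k - 1) (((0 : Fin 1) : ℕ) + 1)) ω =
          P A k ω := by
        unfold cnI P cp
        have e4 : Finset.Ioc ((2 * k - 1) ^ 2 + ((0 : Fin 1) : ℕ) * (8 * k - 1) / 1) ((2 * k - 1) ^ 2 + (((0 : Fin 1) : ℕ) + 1) * (8 * k - 1) / 1) =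
            Finset.Ioo ((2 * k - 1) ^ 2) ((2 * k + 1) ^ 2) := by
          obtain ⟨j, rfl⟩ : ∃ j, k = j + 1 := ⟨k - 1, by omega⟩
          have a1 : 2 * (j + 1) - 1 = 2 * j + 1 := by omega
          have a2 : 8 * (j + 1) - 1 = 8 * j + 7 := by omega
          have a3 : (2 * (j + 1) + 1) ^ 2 = (2 * j + 1) ^ 2 + (8 * j + 7) + 1 := by ring
          ext r
          rw [Finset.mem_Ioc, Finset.mem_Ioo, a1, a2, a3]
          simp only [Fin.val_zero, zero_mul, add_zero, zero_add, one_mul, Nat.div_one]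
          omega
        rw [e4]
      rw [e3, pow_one, Nat.cast_one, div_one]
      field_simp
    refine ⟨hcount, ?_, fun m hm => ?_⟩
    · have h6 : Tendsto (fun k : ℕ => Real.log (k : ℝ) / k) atTop (𝓝 0) := by
        have := (Real.isLittleO_log_id_atTop).tendsto_div_nhds_zero.comp (tendsto_natCast_atTop_atTop (R := ℝ))
        exact this
      filter_upwards [hcount.eventually_const_le (show (1 / 2 : ℝ) < 1 by norm_num),
        h6.eventually_lt_const (show (0 : ℝ) < 1 by norm_num), eventually_ge_atTop 3] with k k1 k2 k3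
      have hk' : (3 : ℝ) ≤ k := by exact_mod_cast k3
      have hL : 0 < Real.log (k : ℝ) := Real.log_pos (by linarith)
      rw [le_div_iff₀ (by positivity)] at k1
      rw [div_lt_one (by linarith)] at k2
      by_contra hcon
      push Not at hcon
      nlinarith
    · have hsq : ∀ k : ℕ, Real.sqrt (2 * (1 / ((2 : ℕ) : ℝ)) * (8 * (k : ℝ))) = √(8 * k) := by
        intro k
        congr 1
        push_cast
        ring
      have hDD : ∀ k : ℕ, exO μ ℱ A ((2 * k - 1) ^ 2) ((2 * (k + 1) - 1) ^ 2) ω = D μ ℱ A k ω := by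
        intro k
        unfold exO D
        have : 2 * (k + 1) - 1 = 2 * k + 1 := by omega
        rw [this]
      obtain ⟨q1, q2⟩ := g1 m hm
      simp only [hsq, hDD] at q1 q2
      exact ⟨q1, q2⟩
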